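import Pool.Agent.U919.BC.Ret
import Pool.Agent.U919.OQ.Law
import Pool.Agent.U919.OQ.Field

/-!
# Groups of isometries of `x y + q(z)`, `q` anisotropic, in classes of groups with the closure properties
of the Baum-Connes conjecture with coefficients
-/

set_option autoImplicit false

namespace Pool.Agent.U919.BC.Oq

open Matrix Pool.Agent.U919.OQ Pool.Agent.U919.OQ.Law
open Pool.Agent.U919.GE (DegreeOver Lvl GG degreeOver_poly)
open Pool.Agent.U74.BCC (BCClass)

variable {ι : Type} [Fintype ι] [DecidableEq ι]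
  {R S : Type} [CommRing R] [CommRing S] {j : R →+* S} {ε : S →+* R} {d : S → ℕ}
  {C : ∀ (G : Type) [Group G], Prop} {Q : Matrix ι ι R}

/-- **Main theorem.** -/
theorem main_bc (h : DegreeOver j ε d) (hC : BCClass C)
    (hQ : Aniso j d Q) (H : Subgroup (Gm ι S)) (hH : H ≤ genS j Q (og Q))
    (hI : C ↥(H.map (mp ε))) : C H := by
  have hog : ∀ x ∈ H, x ∈ og (Q.map j) := fun x hx => genS_le_og j Q (hH hx)
  have hin : ∀ (x : Gm ι S) (hx : x ∈ H), (⟨x, hog x hx⟩ : og (Q.map j)) ∈ Ag j Q ⊔ Bg h hQ := by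
    intro x hx
    obtain ⟨y, hy, hyx⟩ := genS_le h hQ (hH hx)
    have : y = ⟨x, hog x hx⟩ := Subtype.ext hyx
    rwa [this] at hy
  let φ : H →* GG (Ag j Q) (Bg h hQ) :=
    { toFun := fun x => ⟨⟨x.1, hog x.1 x.2⟩, hin x.1 x.2⟩
      map_one' := rfl
      map_mul' := fun x y => rfl }
  have hφ : Function.Injective φ := by
    intro x y hxy
    have h1 := congrArg (fun z : GG (Ag j Q) (Bg h hQ) => ((z : og (Q.map j)) : Gm ι S)) hxy
    exact Subtype.ext h1
  let f : GG (Ag j Q) (Bg h hQ) →* Gm ι R :=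
    ((mp ε).comp (og (Q.map j)).subtype).comp (Ag j Q ⊔ Bg h hQ).subtype
  let q : H →* ↥(H.map (mp ε)) := (mp ε).subgroupMap H
  refine Pool.Agent.U919.BC.crit_bc hC (lvl h hQ) f ?_ ?_ φ hφ q hI ?_
  · rintro ⟨x, hx⟩ hxA h2
    have h3 : mp ε (x : Gm ι S) = 1 := h2
    have h4 := mp_mp h (x : Gm ι S) ((mem_Ag h).1 hxA)
    rw [h3, map_one] at h4
    exact Subtype.ext (Subtype.ext h4.symm)
  · rintro ⟨x, hx⟩ ⟨y, hy⟩ hxB hyB h2 h3
    have h2' : mp ε (x : Gm ι S) = 1 := h2
    have h3' : mp ε (y : Gm ι S) = 1 := h3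
    obtain ⟨z, hz⟩ := isSg h (Q := Q) hxB x.2 h2'
    obtain ⟨z', hz'⟩ := isSg h (Q := Q) hyB y.2 h3'
    apply Subtype.ext
    apply Subtype.ext
    show (x : Gm ι S) * (y : Gm ι S) = (y : Gm ι S) * (x : Gm ι S)
    rw [hz, hz', sg_add, sg_add, add_comm]
  · intro x hx
    exact congrArg Subtype.val hx

theorem gen_bc (h : DegreeOver j ε d) (hC : BCClass C)
    (hQ : Aniso j d Q) (A : Subgroup (Gm ι R)) (hA : A ≤ og Q) : C ↥(addS Q A) ↔ C ↥(genS j Q A) := by
  constructor
  · intro h1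
    refine main_bc h hC hQ _ (genS_mono hA) ?_
    exact hC.sub _ _ (Subgroup.inclusion (map_genS h A)) (Subgroup.inclusion_injective _) h1
  · intro h1
    refine hC.sub _ _ (((mp j).comp (addS Q A).subtype).codRestrict (genS j Q A)
      (fun x => map_addS A ⟨x, x.2, rfl⟩)) ?_ h1
    intro x y hxy
    have h2 : mp j (x : Gm ι R) = mp j y := congrArg Subtype.val hxy
    have h3 := congrArg (mp ε) h2
    rw [mp_mp' h, mp_mp' h] at h3
    exact Subtype.ext h3

theorem bot_bc (hC : BCClass C) {G : Type} [Group G] {H : Subgroup G} (h : H = ⊥) : C H := by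
  subst h
  exact hC.fin inferInstance

theorem subgroups (hC : BCClass C) : Subgroups C := by
  intro ι R S _ _ _ _ j ε d h Q hQ H hH hI
  refine main_bc h hC hQ H hH ?_
  rcases hI with hI | hI
  · exact hI
  · exact bot_bc hC hI

theorem extensions (hC : BCClass C) : Extensions C := by
  intro ι R S _ _ _ _ j ε d h Q hQ A hA
  exact gen_bc h hC hQ A hA

theorem polynomials : Polynomials := fun _ R _ _ _ Q hq => ⟨degreeOver_poly R, aniso_poly Q hq⟩

theorem fields (hC : BCClass C) : Fields C := by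
  intro ι k _ _ _ Q hq
  have h := degreeOver_poly k
  have hQ := aniso_poly Q hq
  have hg := gen_field hq
  have h1 : ∀ H : Subgroup (Gm ι (Polynomial k)), H ≤ og (pol Q) →
      InG C (img Polynomial.constantCoeff H) ∨ img Polynomial.constantCoeff H = ⊥ → InG C H := by
    intro H hH hI
    refine subgroups hC ι k _ _ _ _ h Q hQ H ?_ hI
    rw [hg]
    exact hH
  have h2 : (img Polynomial.constantCoeff (og (pol Q)) : Subgroup (Gm ι k)) ≤ og Q := by
    rintro _ ⟨g, hg', rfl⟩
    have := mp_og Polynomial.constantCoeff (pol Q) hg'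
    have e : (pol Q).map Polynomial.constantCoeff = Q := map_map_eq h
    rwa [e] at this
  have h3 : InG C (og Q) → InG C (og (pol Q)) := by
    intro h4
    refine h1 _ le_rfl (Or.inl ?_)
    exact hC.sub _ _ (Subgroup.inclusion h2) (Subgroup.inclusion_injective _) h4
  refine ⟨h1, ⟨h3, ?_⟩, ?_⟩
  · intro h4
    refine hC.sub _ _ (((mp (Polynomial.C : k →+* Polynomial k)).comp
      (og Q).subtype).codRestrict (og (pol Q)) (fun x => mp_og _ Q x.2)) ?_ h4
    intro x y hxy
    have h5 : mp (Polynomial.C : k →+* Polynomial k) (x : Gm ι k) = mp Polynomial.C y :=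
      congrArg Subtype.val hxy
    have h6 := congrArg (mp Polynomial.constantCoeff) h5
    rw [mp_mp' h, mp_mp' h] at h6
    exact Subtype.ext h6
  · intro hk
    apply h3
    have : Finite (Gm ι k) := Finite.of_injective (fun g : Gm ι k => g.val) (fun a b h => Units.ext h)
    exact hC.fin inferInstance

end Pool.Agent.U919.BC.Oq
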