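import Pool.Agent.U919.BC.Red
import Pool.Agent.U293.EP.Jvdk

/-!
# Groups of automorphisms of the affine plane, in classes of groups with the closure properties of the
Baum-Connes conjecture with coefficients
-/

set_option autoImplicit false

namespace Pool.Agent.U919.BC

open MvPolynomial (X map)
open Pool.Agent.U293.PA
open Pool.Agent.U74.BCC (BCClass)
open Pool.Agent.U722.TT (PA bc bc_ker Vj Vj_bot rf tame tame_eq tame_map lp lp_one lp_mul lp_spec)

variable {C : ∀ (G : Type) [Group G], Prop} {K : Type} [Field K]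

/-- **the affine group** -/
theorem aff_mem (hC : BCClass C) : C ↥(affG (⊤ : Subfield K)) := by
  let f : ↥(affG (⊤ : Subfield K)) →* Matrix (Fin 2) (Fin 2) K :=
    { toFun := fun g => lp g.1
      map_one' := lp_one
      map_mul' := fun g h => lp_mul h.2 }
  let F : ↥(affG (⊤ : Subfield K)) →* Matrix.GeneralLinearGroup (Fin 2) K := f.toHomUnits
  refine solv_ker hC F.rangeRestrict F.rangeRestrict_surjective ?_
    (hC.sub _ _ F.range.subtype (Subgroup.subtype_injective _) (hC.gl2 K))
  apply Group.isSolvable_of_comm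
  have key : ∀ g : ↥(affG (⊤ : Subfield K)), F.rangeRestrict g = 1 → ∀ j : Fin 2, ∃ e : K,
      g.1 (X j) = X j + MvPolynomial.C e := by
    intro g hg j
    obtain ⟨e, he⟩ := lp_spec g.2 j
    have h1 : lp g.1 = 1 := congrArg (fun z : ↥F.range => z.1.1) hg
    refine ⟨e, ?_⟩
    rw [he, h1, Matrix.one_apply, Matrix.one_apply]
    fin_cases j <;> simp
  rintro ⟨a, ha⟩ ⟨b, hb⟩
  apply Subtype.ext
  apply Subtype.ext
  have h2 : ∀ j, (a.1 * b.1) (X j) = (b.1 * a.1) (X j) := by
    intro j
    obtain ⟨e, he⟩ := key a ha j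
    obtain ⟨e', he'⟩ := key b hb j
    rw [AlgEquiv.mul_apply, AlgEquiv.mul_apply, he, he', map_add, map_add, gC, gC, he, he']
    ring
  exact ext_of (h2 0) (h2 1)

variable {A B : Subgroup (Au K)}

theorem stabA (hC : BCClass C) (hA : C A) (g : GG A B) :
    C ↥(MulAction.stabilizer (GG A B) (vA A B g)) := by
  let f : ↥(MulAction.stabilizer (GG A B) (vA A B g)) →* A :=
    { toFun := fun x => ⟨(g : Au K)⁻¹ * ((x : GG A B) : Au K) * (g : Au K), fixA x.2⟩
      map_one' := by
        apply Subtype.ext
        simp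
      map_mul' := fun x y => by
        apply Subtype.ext
        simp only [Subgroup.coe_mul]
        group }
  refine hC.sub _ _ f ?_ hA
  intro x y hxy
  have h1 := congrArg Subtype.val hxy
  have h2 : (g : Au K)⁻¹ * ((x : GG A B) : Au K) * (g : Au K) =
      (g : Au K)⁻¹ * ((y : GG A B) : Au K) * (g : Au K) := h1
  have h3 := mul_left_cancel (mul_right_cancel h2)
  exact Subtype.ext (Subtype.ext h3)

theorem stabB (hC : BCClass C) (hB : C B) (g : GG A B) :
    C ↥(MulAction.stabilizer (GG A B) (vB A B g)) := by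
  let f : ↥(MulAction.stabilizer (GG A B) (vB A B g)) →* B :=
    { toFun := fun x => ⟨(g : Au K)⁻¹ * ((x : GG A B) : Au K) * (g : Au K), fixB x.2⟩
      map_one' := by
        apply Subtype.ext
        simp
      map_mul' := fun x y => by
        apply Subtype.ext
        simp only [Subgroup.coe_mul]
        group }
  refine hC.sub _ _ f ?_ hB
  intro x y hxy
  have h1 := congrArg Subtype.val hxy
  have h2 : (g : Au K)⁻¹ * ((x : GG A B) : Au K) * (g : Au K) =
      (g : Au K)⁻¹ * ((y : GG A B) : Au K) * (g : Au K) := h1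
  have h3 := mul_left_cancel (mul_right_cancel h2)
  exact Subtype.ext (Subtype.ext h3)

/-- **the group generated by the affine and the triangular automorphisms** -/
theorem tame_field (hC : BCClass C) (K : Type) [Field K] :
    C ↥(affG (⊤ : Subfield K) ⊔ triG (⊤ : Subfield K)) := by
  refine hC.tree (GG (affG (⊤ : Subfield K)) (triG (⊤ : Subfield K))) (Vt _ _) (tr _ _)
    (tr_tree (pair_of ⊤)) (fun g u v h => tr_act g u v h) (fun g u v h => tr_inv g u v h) ?_
  intro v
  rcases cases_v v with ⟨g, rfl⟩ | ⟨g, rfl⟩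
  · exact stabA hC (aff_mem hC) g
  · exact stabB hC (solv hC _ tri_solvable) g

/-- **groups of automorphisms of `R[x, y]`** -/
theorem plane (hC : BCClass C) {R : Type} [CommRing R] (Γ : Subgroup (PA 2 R))
    (h : ∀ J : Ideal R, J.IsPrime → Γ.map (bc (rf J)) ≤ tame (FractionRing (R ⧸ J))) : C ↥Γ := by
  refine red hC Γ fun J hJ => le hC (h J hJ) ?_
  rw [tame_eq]
  exact tame_field hC _

theorem plane_tame (hC : BCClass C) (R : Type) [CommRing R] : C ↥(tame R) :=
  plane hC (tame R) fun J _ => tame_map (rf J)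

/-- base change along an injective homomorphism is injective -/
theorem bc_inj {n : ℕ} {R S : Type} [CommRing R] [CommRing S] (φ : R →+* S)
    (hφ : Function.Injective φ) : Function.Injective (bc (n := n) φ) := by
  rw [injective_iff_map_eq_one]
  intro g hg
  have h1 := (bc_ker φ g).1 hg
  rw [(RingHom.injective_iff_ker_eq_bot φ).1 hφ, Vj_bot, Subgroup.mem_bot] at h1
  exact h1

/-- all automorphisms of `K[x, y]`, `K` a field of characteristic zero (Jung) -/
theorem all_field (hC : BCClass C) (K : Type) [Field K] [CharZero K] : C (PA 2 K) := by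
  have hc : CharZero (AlgebraicClosure K) :=
    charZero_of_injective_algebraMap (algebraMap K (AlgebraicClosure K)).injective
  have h1 : affG (⊤ : Subfield (AlgebraicClosure K)) ⊔ triG (⊤ : Subfield (AlgebraicClosure K)) = ⊤ :=
    Pool.Agent.U293.EP.tame_top (AlgebraicClosure K)
  have h2 := tame_field hC (AlgebraicClosure K)
  rw [h1] at h2
  refine hC.sub _ _ ((bc (n := 2) (algebraMap K (AlgebraicClosure K))).codRestrict
    (⊤ : Subgroup (Au (AlgebraicClosure K))) (fun x => Subgroup.mem_top _)) ?_ h2
  intro a b hab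
  exact bc_inj _ (algebraMap K (AlgebraicClosure K)).injective (congrArg Subtype.val hab)

/-- **all automorphisms of `R[x, y]`, `R` a commutative `ℚ`-algebra** -/
theorem all_rat (hC : BCClass C) (R : Type) [CommRing R] (j : ℚ →+* R) : C (PA 2 R) := by
  have h1 : C ↥(⊤ : Subgroup (PA 2 R)) := by
    refine red hC ⊤ fun J hJ => ?_
    have hc : CharZero (FractionRing (R ⧸ J)) :=
      charZero_of_injective_ringHom ((rf J).comp j).injective
    exact hC.sub _ _ (Subgroup.subtype _) (Subgroup.subtype_injective _)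
      (all_field hC (FractionRing (R ⧸ J)))
  exact hC.sub _ _ ((MonoidHom.id (PA 2 R)).codRestrict ⊤ (fun x => Subgroup.mem_top _))
    (fun a b hab => congrArg Subtype.val hab) h1

/-- one variable -/
theorem one_field (hC : BCClass C) (K : Type) [Field K] : C (PA 1 K) := by
  have e : PA 1 K ≃* Pool.Agent.U293.EP.A1 K :=
    AlgEquiv.autCongr (MvPolynomial.uniqueAlgEquiv K (Fin 1))
  exact hC.sub _ _ (Pool.Agent.U293.EP.rho1.comp e.toMonoidHom)
    (Pool.Agent.U293.EP.rho1_inj.comp e.injective) (hC.gl2 K)

/-- all automorphisms of `R[x]` -/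
theorem one_ring (hC : BCClass C) (R : Type) [CommRing R] : C (PA 1 R) := by
  have h1 : C ↥(⊤ : Subgroup (PA 1 R)) := by
    refine red hC ⊤ fun J hJ => ?_
    exact hC.sub _ _ (Subgroup.subtype _) (Subgroup.subtype_injective _)
      (one_field hC (FractionRing (R ⧸ J)))
  exact hC.sub _ _ ((MonoidHom.id (PA 1 R)).codRestrict ⊤ (fun x => Subgroup.mem_top _))
    (fun a b hab => congrArg Subtype.val hab) h1

end Pool.Agent.U919.BC
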