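import Pool.Agent.U722.TT.Pc
import Pool.Agent.U74.BCC.Tr

/-!
# Groups of automorphisms of polynomial rings, in classes of groups with the closure properties of the
Baum-Connes conjecture with coefficients: reduction to fields, and the affine plane

Port of `Pool.Agent.U722.TT.Pb`, `Pf` and `Pc` (helper722) to the closure properties `BCClass` (helper74).
-/

set_option autoImplicit false

namespace Pool.Agent.U919.BC

open MvPolynomial (X map coeff)
open Pool.Agent.U74.BCC (BCClass)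
open Pool.Agent.U722.TT (PA bc Vj bc_ker rf rf_ker Vj_inf Vj_top Vj_bot Vj_mono Vj_comm mem_Vj_coeff
  SB DB fg_DB mem_SB quot_congr tame tame_eq tame_map lp lp_one lp_mul lp_spec)

variable {C : ∀ (G : Type) [Group G], Prop}

theorem solv (hC : BCClass C) (G : Type) [Group G] (h : Group.IsSolvable G) : C G := by
  refine hC.vsolv G ⊤ ?_ inferInstance
  exact Group.isSolvable_of_isSolvable_injective (Subgroup.subtype_injective (⊤ : Subgroup G))

theorem le (hC : BCClass C) {G : Type} [Group G] {H K : Subgroup G} (h : H ≤ K) (hK : C ↥K) :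
    C ↥H :=
  hC.sub _ _ (Subgroup.inclusion h) (Subgroup.inclusion_injective h) hK

/-- an extension with a solvable kernel -/
theorem solv_ker (hC : BCClass C) {G Q : Type} [Group G] [Group Q] (π : G →* Q)
    (hπ : Function.Surjective π) (hker : Group.IsSolvable π.ker) (hQ : C Q) : C G := by
  refine hC.ext G Q π hπ hQ ?_
  intro V hV
  let f : ↥(V.comap π) →* ↥V := (π.comp (Subgroup.subtype _)).codRestrict _ (fun x => x.2)
  refine hC.vsolv _ f.ker ?_ inferInstance
  have h1 : ∀ x : ↥f.ker, (x.1.1 : G) ∈ π.ker := by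
    intro x
    have h1 : f x.1 = 1 := x.2
    exact congrArg Subtype.val h1
  let g : ↥f.ker →* ↥π.ker := ((Subgroup.subtype _).comp f.ker.subtype).codRestrict π.ker h1
  have hg : Function.Injective g := by
    intro a b hab
    have h1 : (a.1.1 : G) = b.1.1 := congrArg (fun z : ↥π.ker => (z : G)) hab
    exact Subtype.ext (Subtype.ext h1)
  exact Group.isSolvable_of_isSolvable_injective hg

/-- a group with a chain of normal subgroups with abelian quotients -/
theorem chain_quot (hC : BCClass C) {Γ : Type} [Group Γ] (N : ℕ → Subgroup Γ)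
    [hN : ∀ k, (N k).Normal] (hmono : ∀ k, N (k + 1) ≤ N k)
    (hcomm : ∀ k, ∀ x ∈ N k, ∀ y ∈ N k, x * y * x⁻¹ * y⁻¹ ∈ N (k + 1))
    (h0 : C (Γ ⧸ N 0)) (k : ℕ) : C (Γ ⧸ N k) := by
  induction k with
  | zero => exact h0
  | succ k ih =>
    let π : Γ ⧸ N (k + 1) →* Γ ⧸ N k :=
      QuotientGroup.map (N (k + 1)) (N k) (MonoidHom.id Γ) (fun x hx => hmono k hx)
    refine solv_ker hC π ?_ ?_ ih
    · intro x
      obtain ⟨x, rfl⟩ := QuotientGroup.mk_surjective x
      exact ⟨QuotientGroup.mk x, rfl⟩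
    · apply Group.isSolvable_of_comm
      rintro ⟨a, ha⟩ ⟨b, hb⟩
      obtain ⟨x, rfl⟩ := QuotientGroup.mk_surjective a
      obtain ⟨y, rfl⟩ := QuotientGroup.mk_surjective b
      have hx : x ∈ N k := (QuotientGroup.eq_one_iff x).1 ha
      have hy : y ∈ N k := (QuotientGroup.eq_one_iff y).1 hb
      apply Subtype.ext
      change (QuotientGroup.mk (x * y) : Γ ⧸ N (k + 1)) = QuotientGroup.mk (y * x)
      rw [QuotientGroup.eq]
      have h1 := hcomm k y⁻¹ (inv_mem hy) x⁻¹ (inv_mem hx)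
      have e : y⁻¹ * x⁻¹ * (y⁻¹)⁻¹ * (x⁻¹)⁻¹ = (x * y)⁻¹ * (y * x) := by group
      rwa [e] at h1

theorem inf_quot (hC : BCClass C) {Γ : Type} [Group Γ] (N M K : Subgroup Γ) [N.Normal]
    [M.Normal] [K.Normal] (hK : K = N ⊓ M) (hN : C (Γ ⧸ N)) (hM : C (Γ ⧸ M)) : C (Γ ⧸ K) := by
  let f : Γ →* (Γ ⧸ N) × (Γ ⧸ M) := (QuotientGroup.mk' N).prod (QuotientGroup.mk' M)
  have hf : ∀ x, f x = 1 ↔ x ∈ K := by
    intro x
    rw [hK, Subgroup.mem_inf, ← QuotientGroup.eq_one_iff (N := N), ← QuotientGroup.eq_one_iff (N := M)]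
    exact Prod.ext_iff
  refine hC.sub _ _ (QuotientGroup.lift K f (fun x hx => (hf x).2 hx)) ?_
    (hC.prod hN hM)
  rw [injective_iff_map_eq_one]
  intro a ha
  obtain ⟨x, rfl⟩ := QuotientGroup.mk_surjective a
  exact (QuotientGroup.eq_one_iff x).2 ((hf x).1 ha)

variable {n : ℕ} {R : Type} [CommRing R]

theorem prime_step (hC : BCClass C) (Γ : Subgroup (PA n R)) (J : Ideal R) [J.IsPrime]
    (h : C ↥(Γ.map (bc (rf J)))) : C (↥Γ ⧸ (Vj n J).subgroupOf Γ) := by
  let ψ := (bc (n := n) (rf J)).subgroupMap Γ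
  have hψ : ∀ x : ↥Γ, ψ x = 1 ↔ x ∈ (Vj n J).subgroupOf Γ := by
    intro x
    rw [Subgroup.mem_subgroupOf]
    have h1 := bc_ker (rf J) x.1
    rw [rf_ker] at h1
    rw [← h1]
    exact ⟨fun h2 => congrArg Subtype.val h2, fun h2 => Subtype.ext h2⟩
  refine hC.sub _ _ (QuotientGroup.lift _ ψ (fun x hx => (hψ x).2 hx)) ?_ h
  rw [injective_iff_map_eq_one]
  intro a ha
  obtain ⟨x, rfl⟩ := QuotientGroup.mk_surjective a
  exact (QuotientGroup.eq_one_iff x).2 ((hψ x).1 ha)

theorem primes_step (hC : BCClass C) (Γ : Subgroup (PA n R)) (t : Finset (Ideal R))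
    (ht : ∀ J ∈ t, J.IsPrime) (h : ∀ J ∈ t, C ↥(Γ.map (bc (rf J)))) :
    C (↥Γ ⧸ (Vj n (t.inf id)).subgroupOf Γ) := by
  classical
  induction t using Finset.induction_on with
  | empty =>
    have h2 : Subsingleton (↥Γ ⧸ (Vj n ((∅ : Finset (Ideal R)).inf id)).subgroupOf Γ) := by
      rw [Finset.inf_empty, Vj_top, Subgroup.top_subgroupOf]
      exact QuotientGroup.subsingleton_quotient_top
    exact hC.fin inferInstance
  | insert J t _ ih =>
    have hJ : J.IsPrime := ht J (Finset.mem_insert_self _ _)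
    refine inf_quot hC ((Vj n J).subgroupOf Γ) ((Vj n (t.inf id)).subgroupOf Γ) _ ?_
      (prime_step hC Γ J (h J (Finset.mem_insert_self _ _)))
      (ih (fun K hK => ht K (Finset.mem_insert_of_mem hK))
        (fun K hK => h K (Finset.mem_insert_of_mem hK)))
    rw [Finset.inf_insert, id, Vj_inf]
    rfl

theorem fg_step (hC : BCClass C) (Γ : Subgroup (PA n R)) (hΓ : Γ.FG)
    (h : ∀ J : Ideal R, J.IsPrime → C ↥(Γ.map (bc (rf J)))) : C ↥Γ := by
  classical
  obtain ⟨S, hS⟩ := fg_DB Γ hΓ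
  obtain ⟨B, hB⟩ : ∃ B, B = Subring.closure (S : Set R) := ⟨_, rfl⟩
  have hD : Γ ≤ DB n B := hS B (fun x hx => by
    rw [hB]
    exact Subring.subset_closure hx)
  have hnoeth : IsNoetherianRing ↥B := by
    rw [hB]
    exact is_noetherian_subring_closure _ S.finite_toSet
  obtain ⟨m, hm⟩ := IsNoetherianRing.isNilpotent_nilradical ↥B
  have hfin := minimalPrimes.finite_of_isNoetherianRing ↥B
  have hex : ∀ p : Ideal ↥B, p ∈ minimalPrimes ↥B → ∃ q : Ideal R, q.IsPrime ∧
      q.comap B.subtype = p := fun p hp =>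
    Ideal.exists_comap_eq_of_mem_minimalPrimes_of_injective Subtype.val_injective p hp
  choose! q hq1 hq2 using hex
  let t : Finset (Ideal R) := hfin.toFinset.image q
  have ht : ∀ J ∈ t, J.IsPrime := by
    intro J hJ
    obtain ⟨p, hp, rfl⟩ := Finset.mem_image.1 hJ
    exact hq1 p ((Set.Finite.mem_toFinset _).1 hp)
  obtain ⟨J, hJ⟩ : ∃ J : Ideal R, J = (nilradical ↥B).map B.subtype := ⟨_, rfl⟩
  have hJm : J ^ m = ⊥ := by
    rw [hJ, ← Ideal.map_pow, hm]
    exact Ideal.map_bot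
  have h1 := primes_step hC Γ t ht (fun J hJ => h J (ht J hJ))
  have hle : J ≤ t.inf id := by
    rw [hJ, Ideal.map_le_iff_le_comap]
    intro x hx
    rw [Ideal.mem_comap, Finset.inf_id_eq_sInf, Submodule.mem_sInf]
    intro I hI
    obtain ⟨p, hp, rfl⟩ := Finset.mem_image.1 hI
    have hp' := (Set.Finite.mem_toFinset _).1 hp
    have h2 : x ∈ (q p).comap B.subtype := by
      rw [hq2 p hp']
      have hpp : p.IsPrime := hp'.1.1
      exact nilradical_le_prime p hx
    exact h2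
  have heq : (Vj n (t.inf id)).subgroupOf Γ = (Vj n (J ^ (0 + 1))).subgroupOf Γ := by
    rw [zero_add, pow_one]
    apply le_antisymm
    · intro x hx
      rw [Subgroup.mem_subgroupOf] at hx ⊢
      rw [mem_Vj_coeff] at hx ⊢
      intro i w
      have h2 : coeff w (x.1 (X i) - X i) ∈ B := by
        have h3 : x.1 (X i) - X i ∈ SB n B := sub_mem ((hD x.2).1 i) ⟨X i, MvPolynomial.map_X _ i⟩
        exact mem_SB.1 h3 w
      have h3 : (⟨_, h2⟩ : ↥B) ∈ nilradical ↥B := by
        have h4 : nilradical ↥B = sInf (minimalPrimes ↥B) :=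
          (Ideal.sInf_minimalPrimes (I := (⊥ : Ideal ↥B))).symm
        rw [h4, Submodule.mem_sInf]
        intro p hp
        rw [← hq2 p hp, Ideal.mem_comap]
        have h5 := hx i w
        rw [Finset.inf_id_eq_sInf, Submodule.mem_sInf] at h5
        exact h5 _ (Finset.mem_coe.2 (Finset.mem_image.2 ⟨p, (Set.Finite.mem_toFinset _).2 hp, rfl⟩))
      have h4 := Ideal.mem_map_of_mem B.subtype h3
      rw [← hJ] at h4
      exact h4
    · intro x hx
      rw [Subgroup.mem_subgroupOf] at hx ⊢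
      exact Vj_mono hle hx
  have h1' := quot_congr heq h1
  have h2 := chain_quot hC (Γ := ↥Γ) (fun k => (Vj n (J ^ (k + 1))).subgroupOf Γ)
    (fun k x hx => Vj_mono (Ideal.pow_le_pow_right (by omega)) hx)
    (fun k x hx y hy => Vj_comm (J := J ^ (k + 1)) (by
      rw [← pow_add]
      exact Ideal.pow_le_pow_right (by omega)) hx hy) h1' m
  refine hC.sub _ _ (QuotientGroup.mk' ((Vj n (J ^ (m + 1))).subgroupOf Γ)) ?_ h2
  rw [injective_iff_map_eq_one]
  intro x hx
  have h4 : x ∈ (Vj n (J ^ (m + 1))).subgroupOf Γ := (QuotientGroup.eq_one_iff x).1 hx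
  rw [Subgroup.mem_subgroupOf, pow_succ, hJm, Ideal.bot_mul, Vj_bot, Subgroup.mem_bot] at h4
  exact Subtype.ext h4

/-- **reduction to fields** -/
theorem red (hC : BCClass C) (Γ : Subgroup (PA n R))
    (h : ∀ J : Ideal R, J.IsPrime → C ↥(Γ.map (bc (rf J)))) : C ↥Γ := by
  refine hC.loc _ fun H hH => ?_
  have h1 : (H.map Γ.subtype).FG := by
    classical
    obtain ⟨T, hT⟩ := hH
    refine ⟨T.image Γ.subtype, ?_⟩
    rw [← hT, MonoidHom.map_closure, Finset.coe_image]
  have h2 : C ↥(H.map Γ.subtype) := by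
    refine fg_step hC _ h1 (fun J hJ => le hC ?_ (h J hJ))
    apply Subgroup.map_mono
    rintro _ ⟨x, -, rfl⟩
    exact x.2
  refine hC.sub _ _ (Γ.subtype.subgroupMap H) ?_ h2
  intro a b hab
  have h3 : (a.1.1 : PA n R) = b.1.1 :=
    congrArg (fun z : ↥(H.map Γ.subtype) => (z : PA n R)) hab
  exact Subtype.ext (Subtype.ext h3)

end Pool.Agent.U919.BC
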