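import Pool.Agent.U919.BC.Red
import Pool.Agent.U919.GE.Sub
import Pool.Agent.U919.GE.Ex

/-!
# Groups of matrices of size two over rings with a degree function and a retraction, in classes of groups
with the closure properties of the Baum-Connes conjecture with coefficients
-/

set_option autoImplicit false

namespace Pool.Agent.U919.BC

open SimpleGraph Pool.Agent.U919.GE
open Pool.Agent.U74.BCC (BCClass)

variable {C : ∀ (G : Type) [Group G], Prop}

section crit

variable {Γ : Type} [Group Γ] {A B : Subgroup Γ} {N M : Γ → ℕ}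

/-- a group acting on the tree of cosets through an injective homomorphism -/
theorem crit_bc (hC : BCClass C) (hl : Lvl A B N M) {P : Type} [Group P] (f : GG A B →* P)
    (hA : ∀ x : GG A B, (x : Γ) ∈ A → f x = 1 → x = 1)
    (hB : ∀ x y : GG A B, (x : Γ) ∈ B → (y : Γ) ∈ B → f x = 1 → f y = 1 → x * y = y * x)
    {H : Type} [Group H] (φ : H →* GG A B) (hφ : Function.Injective φ)
    {Q : Type} [Group Q] (q : H →* Q) (hQ : C Q) (hq : ∀ h, q h = 1 → f (φ h) = 1) : C H := by
  have hcoset : ∀ (K : Subgroup Γ) (x y : GG A B), ((y * x : GG A B) : Γ)⁻¹ * (x : Γ) ∈ K →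
      ((x⁻¹ * y * x : GG A B) : Γ) ∈ K := by
    intro K x y h
    have h1 := inv_mem h
    have e : (((y * x : GG A B) : Γ)⁻¹ * (x : Γ))⁻¹ = ((x⁻¹ * y * x : GG A B) : Γ) := by
      simp only [Subgroup.coe_mul, Subgroup.coe_inv]
      group
    rwa [e] at h1
  have hsA : ∀ x y : GG A B, y • vA A B x = vA A B x → ((x⁻¹ * y * x : GG A B) : Γ) ∈ A := by
    intro x y h
    rw [smul_vA, vA_eq] at h
    exact hcoset A x y h
  have hsB : ∀ x y : GG A B, y • vB A B x = vB A B x → ((x⁻¹ * y * x : GG A B) : Γ) ∈ B := by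
    intro x y h
    rw [smul_vB, vB_eq] at h
    exact hcoset B x y h
  have hfc : ∀ x y : GG A B, f y = 1 → f (x⁻¹ * y * x) = 1 := by
    intro x y h
    rw [map_mul, map_mul, h, mul_one, ← map_mul, inv_mul_cancel, map_one]
  have hcancel : ∀ x y : GG A B, x⁻¹ * y * x = 1 → y = 1 := by
    intro x y h
    have h1 : y = x * (x⁻¹ * y * x) * x⁻¹ := by group
    rw [h1, h]
    group
  have hone : ∀ y : H, φ y = 1 → y = 1 := fun y h => hφ (h.trans (map_one φ).symm)
  let _ : MulAction H (Vt A B) := MulAction.compHom _ φ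
  have hsm : ∀ (y : H) (v : Vt A B), y • v = φ y • v := fun _ _ => rfl
  refine hC.tree H (Vt A B) (tr A B) (tr_tree hl)
    (fun g u v h => by rw [hsm, hsm]; exact tr_smul (A := A) (B := B) (φ g) u v h) ?_ ?_
  · rintro g u v ⟨x, ⟨rfl, rfl⟩ | ⟨rfl, rfl⟩⟩ ⟨h1, -⟩
    · rw [hsm, smul_vA] at h1
      exact vA_ne_vB h1
    · rw [hsm, smul_vB] at h1
      exact vA_ne_vB h1.symm
  · intro v
    obtain ⟨qs, hqs⟩ : ∃ qs : ↥(MulAction.stabilizer H v) →* Q, ∀ x, qs x = q x.1 :=
      ⟨q.comp (Subgroup.subtype _), fun _ => rfl⟩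
    refine solv_ker hC qs.rangeRestrict qs.rangeRestrict_surjective ?_
      (hC.sub _ _ qs.range.subtype (Subgroup.subtype_injective _) hQ)
    apply Group.isSolvable_of_comm
    rintro ⟨⟨y, hy⟩, hy'⟩ ⟨⟨z, hz⟩, hz'⟩
    have hqy : q y = 1 := by
      have h1 : qs.rangeRestrict ⟨y, hy⟩ = 1 := hy'
      have h2 := congrArg Subtype.val h1
      rw [MonoidHom.coe_rangeRestrict, hqs] at h2
      exact h2
    have hqz : q z = 1 := by
      have h1 : qs.rangeRestrict ⟨z, hz⟩ = 1 := hz'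
      have h2 := congrArg Subtype.val h1
      rw [MonoidHom.coe_rangeRestrict, hqs] at h2
      exact h2
    have hy1 : φ y • v = v := hy
    have hz1 : φ z • v = v := hz
    have key : y * z = z * y := by
      rcases cases_v v with ⟨x, rfl⟩ | ⟨x, rfl⟩
      · have h1 : y = 1 := hone _ (hcancel x _ (hA _ (hsA x _ hy1) (hfc x _ (hq y hqy))))
        rw [h1, one_mul, mul_one]
      · have h1 := hB _ _ (hsB x _ hy1) (hsB x _ hz1) (hfc x _ (hq y hqy)) (hfc x _ (hq z hqz))
        apply hφ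
        rw [map_mul, map_mul]
        have e1 : φ y * φ z = x * ((x⁻¹ * φ y * x) * (x⁻¹ * φ z * x)) * x⁻¹ := by group
        have e2 : φ z * φ y = x * ((x⁻¹ * φ z * x) * (x⁻¹ * φ y * x)) * x⁻¹ := by group
        rw [e1, e2, h1]
    exact Subtype.ext (Subtype.ext key)

end crit

section main

open DegreeOver

variable {R S : Type} [Ring R] [Ring S] {j : R →+* S} {ε : S →+* R} {d : S → ℕ}

/-- **Main theorem** for subgroups. -/
theorem main_bc (hC : BCClass C) (h : DegreeOver j ε d) (H : Subgroup (G2 S))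
    (hH : H ≤ (⊤ : Subgroup (G2 R)).map (mp j) ⊔ U2 S) (hQ : C ↥(H.map (mp ε))) : C H := by
  have hU : ∀ r : R, up r ∈ (⊤ : Subgroup (G2 R)) := fun _ => Subgroup.mem_top _
  rw [← sup_eq h] at hH
  let f : GG ((⊤ : Subgroup (G2 R)).map (mp j)) (Bsub h ((⊤ : Subgroup (G2 R)).map (mp j))) →*
      G2 R := (mp ε).comp (Subgroup.subtype _)
  refine crit_bc hC (h.lvl (pair h ⊤ hU)) f ?_ ?_ (Subgroup.inclusion hH)
    (Subgroup.inclusion_injective hH) ((mp ε).subgroupMap H) hQ ?_
  · rintro ⟨x, hx⟩ hxA h2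
    obtain ⟨a, _, rfl⟩ := hxA
    change mp ε (mp j a) = 1 at h2
    rw [mp_mp h] at h2
    apply Subtype.ext
    show mp j a = 1
    rw [h2, map_one]
  · have key : ∀ x : GG ((⊤ : Subgroup (G2 R)).map (mp j))
        (Bsub h ((⊤ : Subgroup (G2 R)).map (mp j))), (x : G2 S) ∈
        Bsub h ((⊤ : Subgroup (G2 R)).map (mp j)) → f x = 1 → ∃ s, (x : G2 S) = up s := by
      intro x hx h1
      have h2 : mp ε (x : G2 S) = 1 := h1
      obtain ⟨a, ⟨a0, ha0, rfl⟩, h3, h4, h5, h6⟩ := Bsub_dec hx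
      have e : ∀ i k, ε ((x : G2 S).val i k) = (1 : Matrix (Fin 2) (Fin 2) R) i k := by
        intro i k
        rw [← mp_apply ε, h2]
        rfl
      have e0 := e 0 0
      have e1 := e 1 1
      rw [← h4, mp_apply, h.ret, Matrix.one_apply_eq] at e0
      rw [← h5, mp_apply, h.ret, Matrix.one_apply_eq] at e1
      rw [mp_apply, e0, map_one] at h4
      rw [mp_apply, e1, map_one] at h5
      have h7 : (x : G2 S).val 1 0 = 0 := (mem_Bsub.1 hx).1
      refine ⟨(x : G2 S).val 0 1, ?_⟩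
      apply Units.ext
      ext i k
      fin_cases i <;> fin_cases k
      · exact h4.symm
      · rfl
      · exact h7
      · exact h5.symm
    intro x y hx hy h1 h2
    obtain ⟨s, hs⟩ := key x hx h1
    obtain ⟨t, ht⟩ := key y hy h2
    apply Subtype.ext
    rw [Subgroup.coe_mul, Subgroup.coe_mul, hs, ht, ← up_add, ← up_add, add_comm]
  · intro y hy
    exact congrArg Subtype.val hy

theorem gen_bc (hC : BCClass C) (h : DegreeOver j ε d) (A : Subgroup (G2 R)) :
    C ↥(A ⊔ U2 R) ↔ C ↥(A.map (mp j) ⊔ U2 S) := by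
  constructor
  · intro h1
    refine main_bc hC h _ (sup_le_sup_right (Subgroup.map_mono le_top) _) ?_
    rwa [map_gen h]
  · intro h1
    have hinj : Function.Injective (mp j) := fun a b hab => by
      rw [← mp_mp h a, hab, mp_mp h b]
    have hle : A ⊔ U2 R ≤ (A.map (mp j) ⊔ U2 S).comap (mp j) := by
      refine sup_le (fun a ha => Subgroup.mem_sup_left ⟨a, ha, rfl⟩) ?_
      rw [U2, Subgroup.closure_le]
      rintro _ ⟨r, rfl⟩
      show mp j (up r) ∈ A.map (mp j) ⊔ U2 S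
      rw [mp_up]
      exact Subgroup.mem_sup_right (U2_mem _)
    refine hC.sub _ _ (((mp j).comp (Subgroup.subtype _)).codRestrict _
      fun x => hle x.2) ?_ h1
    intro a b hab
    exact Subtype.ext (hinj (congrArg Subtype.val hab))

theorem ker_bc (hC : BCClass C) (h : DegreeOver j ε d) (H : Subgroup (G2 S))
    (hH : H ≤ (⊤ : Subgroup (G2 R)).map (mp j) ⊔ U2 S) (hk : ∀ g ∈ H, mp ε g = 1) : C H := by
  refine main_bc hC h H hH (hC.fin ?_)
  have h1 : ∀ x : ↥(H.map (mp ε)), x = 1 := by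
    rintro ⟨_, g, hg, rfl⟩
    exact Subtype.ext (hk g hg)
  have h2 : Subsingleton ↥(H.map (mp ε)) := ⟨fun a b => by rw [h1 a, h1 b]⟩
  infer_instance

theorem E2_bc (hC : BCClass C) (h : DegreeOver j ε d) : C ↥(E2 R) ↔ C ↥(E2 S) := by
  have h1 := gen_bc hC h (E2 R)
  have h2 : E2 R ⊔ U2 R = E2 R := by
    rw [sup_eq_left, U2, Subgroup.closure_le]
    rintro _ ⟨s, rfl⟩
    exact up_mem_E2 s
  rwa [E2_eq j, h2] at h1

theorem GE2_bc (hC : BCClass C) (h : DegreeOver j ε d) : C ↥(GE2 R) ↔ C ↥(GE2 S) := by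
  have h1 := gen_bc hC h (GE2 R)
  have h2 : GE2 R ⊔ U2 R = GE2 R := by
    rw [sup_eq_left, U2, Subgroup.closure_le]
    rintro _ ⟨s, rfl⟩
    exact E2_le_GE2 (up_mem_E2 s)
  rwa [GE2_eq h, h2] at h1

end main

end Pool.Agent.U919.BC
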